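import Pool.Agent.H430.MixTwo

set_option linter.all false

/-!
# Q1 with the worst starting point of `G'` replaced by the stationary average, and the left
inequality of Q1
-/

namespace Pool.Agent.Results.MP_50f558_pr.AverageMixing

universe u v

/-- transition matrix of the lazy simple random walk: `1/2` on the diagonal, `1/(2 deg x)` on
edges `x ~ y` -/
noncomputable def lazyP {V : Type*} [Fintype V] [DecidableEq V] (G : SimpleGraph V)
    [DecidableRel G.Adj] : Matrix V V ℝ := fun x y =>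
  if x = y then 1/2 else if G.Adj x y then 1 / (2 * (G.degree x : ℝ)) else 0

/-- stationary law: `deg x` divided by the sum of all degrees (which is `2 |E|`) -/
noncomputable def statPi {V : Type*} [Fintype V] (G : SimpleGraph V)
    [DecidableRel G.Adj] (x : V) : ℝ := (G.degree x : ℝ) / ∑ z, (G.degree z : ℝ)

/-- `|P^t(x,y)/π(y) - 1| ≤ 1/4` for all `x, y` -/
def Mixed {V : Type*} [Fintype V] [DecidableEq V] (G : SimpleGraph V)
    [DecidableRel G.Adj] (t : ℕ) : Prop :=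
  ∀ x y, |(lazyP G ^ t) x y / statPi G y - 1| ≤ 1/4

/-- the squared `L²(π)` distance of the law at time `t` from `π`, averaged over a starting point
`x` chosen from `π`: `∑ x, π(x) ∑ y, π(y) (P^t(x,y)/π(y) - 1)²` -/
noncomputable def avgL2 {V : Type*} [Fintype V] [DecidableEq V] (G : SimpleGraph V)
    [DecidableRel G.Adj] (t : ℕ) : ℝ :=
  ∑ x, statPi G x * ∑ y, statPi G y * ((lazyP G ^ t) x y / statPi G y - 1) ^ 2

/-- the uniform mixing time `t_∞(G)`: the least `t` with `Mixed G t` (`∞` if there were none) -/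
noncomputable def tInf {V : Type*} [Fintype V] [DecidableEq V] (G : SimpleGraph V)
    [DecidableRel G.Adj] : ℕ∞ := sInf ((fun t : ℕ => (t : ℕ∞)) '' {t : ℕ | Mixed G t})

/-- the average `L²` mixing time `t_avg(G)`: the least `t` with `avgL2 G t ≤ 1/4` (`∞` if there
were none) -/
noncomputable def tAvg {V : Type*} [Fintype V] [DecidableEq V] (G : SimpleGraph V)
    [DecidableRel G.Adj] : ℕ∞ := sInf ((fun t : ℕ => (t : ℕ∞)) '' {t : ℕ | avgL2 G t ≤ 1/4})

/-- `f` is an `(a,b)`-quasi-isometry from `G` to `G'` -/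
structure IsQI {V V' : Type*} (a b : ℝ) (G : SimpleGraph V) (G' : SimpleGraph V') (f : V → V') :
    Prop where
  lower : ∀ x y, a⁻¹ * (G.dist x y : ℝ) - b ≤ (G'.dist (f x) (f y) : ℝ)
  upper : ∀ x y, (G'.dist (f x) (f y) : ℝ) ≤ a * (G.dist x y : ℝ) + b
  dense : ∀ x', ∃ x, (G'.dist x' (f x) : ℝ) ≤ b

theorem inf_le (P P' : ℕ → Prop) (C : ℕ) (hC : 0 < C) (h : ∀ t, P' t → P (C * t)) :
    sInf ((fun t : ℕ => (t : ℕ∞)) '' {t : ℕ | P t}) ≤
      (C : ℕ∞) * sInf ((fun t : ℕ => (t : ℕ∞)) '' {t : ℕ | P' t}) := by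
  by_cases hne : ((fun t : ℕ => (t : ℕ∞)) '' {t : ℕ | P' t}).Nonempty
  · obtain ⟨t, ht, hte⟩ := csInf_mem hne
    rw [← hte]
    apply csInf_le (OrderBot.bddBelow _)
    refine ⟨C * t, h t ht, ?_⟩
    simp
  · rw [Set.not_nonempty_iff_eq_empty] at hne
    rw [hne, sInf_empty, ENat.mul_top (by exact_mod_cast hC.ne')]
    exact le_top

/-- For all `a ≥ 1`, `b ≥ 0`, `D` there is a constant `C` such that, for every finite connected
vertex-transitive graph `G` and every finite connected graph `G'` that is `(a,b)`-quasi-isometric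
to `G`, both of maximum degree at most `D` and with more than one vertex,
`t_∞(G) ≤ C t_avg(G')` and `t_avg(G') ≤ C t_∞(G)`; moreover `t_avg(G') ≤ t_∞(G')`. -/
theorem result (a b : ℝ) (ha : 1 ≤ a) (hb : 0 ≤ b) (D : ℕ) :
    ∃ C : ℕ, 0 < C ∧ ∀ (V : Type u) (V' : Type v) [Fintype V] [DecidableEq V] [Nontrivial V]
      [Fintype V'] [DecidableEq V'] [Nontrivial V'] (G : SimpleGraph V) [DecidableRel G.Adj]
      (G' : SimpleGraph V') [DecidableRel G'.Adj],
      G.Connected → (∀ x y, ∃ e : G ≃g G, e x = y) → (∀ x, G.degree x ≤ D) →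
      G'.Connected → (∀ x, G'.degree x ≤ D) → (∃ f : V → V', IsQI a b G G' f) →
      tInf G ≤ (C : ℕ∞) * tAvg G' ∧ tAvg G' ≤ (C : ℕ∞) * tInf G ∧ tAvg G' ≤ tInf G' := by
  obtain ⟨C, hC, h⟩ := Mix430.two_sided.{u, v} a b ha hb D
  refine ⟨2 * C, by omega, ?_⟩
  intro V V' _ _ _ _ _ _ G _ G' _ hG htr hd hG' hD hf
  have hf' : ∃ f : V → V', Mix430.IsQI a b G G' f := by
    obtain ⟨f, hf⟩ := hf
    exact ⟨f, ⟨hf.lower, hf.upper, hf.dense⟩⟩
  obtain ⟨-, -, h3⟩ := h G G' hG hd hG' hD hf'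
  obtain ⟨h4, h5⟩ := h3 htr
  have hpos' : ∀ x, 0 < G'.degree x := fun x => hG'.preconnected.degree_pos_of_nontrivial x
  refine ⟨?_, ?_, ?_⟩
  · exact inf_le (fun t => Mixed G t) (fun t => avgL2 G' t ≤ 1/4) (2 * C) (by omega)
      (fun t ht => h4 t ht)
  · have h6 : tAvg G' ≤ (C : ℕ∞) * tInf G :=
      inf_le (fun t => avgL2 G' t ≤ 1/4) (fun t => Mixed G t) C hC (fun t ht => h5 t ht)
    refine h6.trans ?_
    have h7 : (C : ℕ∞) ≤ ((2 * C : ℕ) : ℕ∞) := by exact_mod_cast (by omega : C ≤ 2 * C)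
    exact mul_le_mul' h7 le_rfl
  · have h8 := inf_le (fun t => avgL2 G' t ≤ 1/4) (fun t => Mixed G' t) 1 one_pos
      (fun t ht => by rw [one_mul]; exact Mix430.avg_of_mixed hpos' t ht)
    rw [Nat.cast_one, one_mul] at h8
    exact h8

end Pool.Agent.Results.MP_50f558_pr.AverageMixing
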